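import Pool.Agent.L0h98.RF.Def

set_option autoImplicit false

/-! # Project RF, module BIG: large sets of vertices have many boundary edges -/

namespace Pool.Agent.L0h95.RF

open Finset Classical
open Pool.Agent.L0h98.GS (Hf eC)
open Pool.Agent.N404.LF (cnt)
open Pool.Agent.L0h98.RF

theorem t_BIG (hO : S_ONE) (hG : S_BGN) (hC : S_BGC) : S_BIG := by
  obtain ⟨q, S₀, m₀, hq, hS, hB⟩ := hG
  refine ⟨q, S₀, m₀, fun V _ m a hm h3 => ?_⟩
  set A : Finset (Equiv.Perm (Hf m)) := univ.filter fun π : Equiv.Perm (Hf m) =>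
    ∃ X : Finset V, S₀ ≤ sz a X ∧ sz a X ≤ m ∧ q * cC a π X ≤ sz a X with hA
  set B : ℕ × ℕ → Finset (Equiv.Perm (Hf m)) := fun p => univ.filter fun π : Equiv.Perm (Hf m) =>
    ∃ X : Finset V, sz a X = p.1 ∧ p.2 ≤ eC a π X with hBd
  set P : Finset (ℕ × ℕ) := (range (m + 1) ×ˢ range (m + 1)).filter fun p =>
    S₀ ≤ p.1 ∧ p.1 ≤ m ∧ 1 ≤ p.2 ∧ ∃ c, p.1 = 2 * p.2 + c ∧ q * c ≤ p.1 with hP
  have hsub : A ⊆ P.biUnion B := by
    intro π hπ
    rw [hA, mem_filter] at hπ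
    obtain ⟨-, X, h1, h2, h3'⟩ := hπ
    have h4 : 2 * eC a π X + cC a π X = sz a X := (hC V m a π).2.2.2.1 X
    rw [mem_biUnion]
    refine ⟨(sz a X, eC a π X), ?_, ?_⟩
    · rw [hP, mem_filter, mem_product, mem_range, mem_range]
      refine ⟨⟨by dsimp only; omega, by dsimp only; omega⟩, h1, h2, ?_, cC a π X, h4.symm, h3'⟩
      dsimp only
      by_contra hcon
      have he : eC a π X = 0 := by omega
      rw [he] at h4
      have : 3 * cC a π X ≤ q * cC a π X := Nat.mul_le_mul_right _ hq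
      omega
    · rw [hBd]
      dsimp only
      rw [mem_filter]
      exact ⟨mem_univ _, X, rfl, le_rfl⟩
  have hone : ∀ p ∈ P, (m : ℝ) * (m + 1) ^ 2 * ((B p).card : ℝ) ≤ ((2 * m).factorial : ℝ) := by
    intro p hp
    rw [hP, mem_filter] at hp
    obtain ⟨-, hp1, hp2, hp3, c, hc1, hc2⟩ := hp
    have h5 := hO V m a h3 p.1 c p.2 hc1 hp3 hp2
    have h6 := hB m p.1 c p.2 hm hp1 hp2 hc2 hc1
    have h7 : (0 : ℝ) ≤ (m : ℝ) * (m + 1) ^ 2 := by positivity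
    have h8 : (0 : ℝ) ≤ ((2 * m).factorial : ℝ) := by positivity
    calc (m : ℝ) * (m + 1) ^ 2 * ((B p).card : ℝ)
        ≤ (m : ℝ) * (m + 1) ^ 2 * (((2 * m).factorial : ℝ) * bd m p.1 c p.2) :=
          mul_le_mul_of_nonneg_left h5 h7
      _ = ((2 * m).factorial : ℝ) * ((m : ℝ) * (m + 1) ^ 2 * bd m p.1 c p.2) := by ring
      _ ≤ ((2 * m).factorial : ℝ) * 1 := mul_le_mul_of_nonneg_left h6 h8
      _ = _ := mul_one _
  have hcardP : P.card ≤ (m + 1) ^ 2 := by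
    refine (card_filter_le _ _).trans ?_
    rw [card_product, card_range, sq]
  have hAcard : (A.card : ℝ) ≤ ∑ p ∈ P, ((B p).card : ℝ) := by
    have := (card_le_card hsub).trans card_biUnion_le
    exact_mod_cast this
  have hfin : (m : ℝ) * (m + 1) ^ 2 * (A.card : ℝ) ≤
      ((m : ℝ) + 1) ^ 2 * ((2 * m).factorial : ℝ) := by
    have h7 : (0 : ℝ) ≤ (m : ℝ) * (m + 1) ^ 2 := by positivity
    have h8 : (0 : ℝ) ≤ ((2 * m).factorial : ℝ) := by positivity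
    calc (m : ℝ) * (m + 1) ^ 2 * (A.card : ℝ)
        ≤ (m : ℝ) * (m + 1) ^ 2 * ∑ p ∈ P, ((B p).card : ℝ) := mul_le_mul_of_nonneg_left hAcard h7
      _ = ∑ p ∈ P, (m : ℝ) * (m + 1) ^ 2 * ((B p).card : ℝ) := by rw [mul_sum]
      _ ≤ ∑ _p ∈ P, ((2 * m).factorial : ℝ) := sum_le_sum hone
      _ = (P.card : ℝ) * ((2 * m).factorial : ℝ) := by rw [sum_const, nsmul_eq_mul]
      _ ≤ ((m : ℝ) + 1) ^ 2 * ((2 * m).factorial : ℝ) := by
          refine mul_le_mul_of_nonneg_right ?_ h8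
          exact_mod_cast hcardP
  have hpos : (0 : ℝ) < ((m : ℝ) + 1) ^ 2 := by positivity
  have : (m : ℝ) * (A.card : ℝ) ≤ ((2 * m).factorial : ℝ) := by
    have h9 : ((m : ℝ) + 1) ^ 2 * ((m : ℝ) * (A.card : ℝ)) ≤
        ((m : ℝ) + 1) ^ 2 * ((2 * m).factorial : ℝ) := by
      calc ((m : ℝ) + 1) ^ 2 * ((m : ℝ) * (A.card : ℝ))
          = (m : ℝ) * (m + 1) ^ 2 * (A.card : ℝ) := by ring
        _ ≤ _ := hfin
    exact le_of_mul_le_mul_left h9 hpos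
  exact_mod_cast this

end Pool.Agent.L0h95.RF
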